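import Pool.Agent.helper50.BS.SpecT

set_option autoImplicit false

open Finset

open scoped Classical

noncomputable section

namespace Pool.Agent.BS

theorem TD4_filter {α : Type} (S : Finset α) (p q : α → Prop) (d1 : DecidablePred p) (d2 : DecidablePred q)
    (h : ∀ x ∈ S, (p x ↔ q x)) : @Finset.filter α p d1 S = @Finset.filter α q d2 S := by
  apply Finset.ext
  intro x
  rw [Finset.mem_filter, Finset.mem_filter]
  exact and_congr_right fun hx => h x hx

theorem TD4 (h1 : TD1_stmt) (h7 : CG7_stmt) : TD4_stmt := by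
  intro g R _ W β P x y u k l Z QQ hx hy hu hZ hQQ hK hdl hP
  have h := h7 ℕ Rˣ Z QQ (β \ (g.dl W \ P)) (by
    intro Q hQ hm
    obtain ⟨K, hK1, hK2, hK3, hK4, hK5⟩ := h1 g R W β x y u k l Z Q hx hy hu hZ hQ hm
    rw [← hK3]
    exact hK K hK1 hK2 hK4 (by rw [hK3]; exact hK5) (by rw [hK3]; exact hQ)) (by
    intro h0
    exact Finset.not_nonempty_empty (hQQ ∅ h0).2)
  refine h.trans (congrArg _ (Finset.prod_congr (TD4_filter QQ _ _ _ _ ?_) (fun _ _ => rfl)))
  intro Q hQ
  have hQβ := (hQQ Q hQ).1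
  constructor
  · intro hs e he
    obtain ⟨he1, he2⟩ := Finset.mem_inter.mp he
    have := (Finset.mem_sdiff.mp (hs he1)).2
    by_contra hc
    exact this (Finset.mem_sdiff.mpr ⟨he2, hc⟩)
  · intro hs e he
    refine Finset.mem_sdiff.mpr ⟨hQβ he, fun hc => ?_⟩
    obtain ⟨hc1, hc2⟩ := Finset.mem_sdiff.mp hc
    exact hc2 (hs (Finset.mem_inter.mpr ⟨he, hc1⟩))

end Pool.Agent.BS

end
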